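import Mathlib
import Pool.Agent.K1H32.CP.Main

/-!
# The positive classifications of `C_p(K)` and `C(K)` agree for countable compact `K`

For countable compact Hausdorff spaces `K`, `L` there is a positive linear homeomorphism of
`C_p(K)` onto `C_p(L)` if and only if there is a positive isomorphism of `C(K)` onto `C(L)`
(positivity of the inverse is not required). More precisely, every positive isomorphism
`T : C(K) → C(L)` can be approximated in the operator norm by positive isomorphisms which are also
homeomorphisms for the topologies of pointwise convergence.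

Outline (no ordinals and no classification of countable compact spaces are used). One has
`C(K)* = ℓ_1(K)`; write `μ_y = T* δ_y ≥ 0` for `y ∈ L` (the rows of `T`). The space of finitely
supported measures is spanned by the countably many `δ_x`. One perturbs `T` by a back-and-forth
construction so that finally all rows are finitely supported and all `δ_x` are finite combinations
of rows; the rows in a finite set `F`, already treated, are not changed any more.

* Forward (`fwd`). Let `y ∉ F`, let `A` be a finite set with `μ_y(K ∖ A) < ε`, and let the clopen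
  sets `D_n` form a partition of `K ∖ A`. If `U_n` is a clopen neighbourhood of `y`, disjoint from
  `F`, with `T 1_{D_n} ≤ μ_y(D_n) + ε / 2^n` on `U_n`, then
  `T' = T - ∑ 1_{U_n} · T (1_{D_n} · )` is near `T`, `0 ≤ T' ≤ T`, and the row of `T'` at `y` is the
  restriction of `μ_y` to `A`.
* Back (`back`). Let `x ∈ K` and `δ_x = ∑_y λ_y μ_y`, `λ ∈ ℓ_1(L)`. Take a large finite `B ⊇ F`,
  make the rows in `B ∖ F` finite by the forward step (this decreases them) and let
  `e = ∑_{y ∈ B} λ_y μ'_y - δ_x`, a finitely supported measure of small norm. Its negative part is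
  compensated by adding a small positive multiple of it to a row `y_1 ∉ F` with `λ_{y_1} > 0`, and
  its positive part by adding a multiple to a row `y_2 ∉ F` with `λ_{y_2} < 0`. If all `λ_y`,
  `y ∉ F`, are `≥ 0` then `e ≤ 0`, because of `μ'_y ≤ μ_y`, so that no `y_2` is needed; similarly
  no `y_1` is needed if they are all `≤ 0`. So only positive measures are added to rows.

The converse is the closed graph theorem: a positive linear bijection is bounded with bounded
inverse.
-/

set_option autoImplicit false

namespace Pool.Agent.Results.MP_fa8dfe_an.PositiveClassification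

universe u v

/-- The topology of pointwise convergence on the space of continuous real functions on `X`; the
space with this topology is `C_p(X)`. -/
@[reducible] def pointwise (X : Type u) [TopologicalSpace X] : TopologicalSpace C(X, ℝ) :=
  TopologicalSpace.induced (fun (f : C(X, ℝ)) (x : X) => f x) Pi.topologicalSpace

/-- (1) For countable compact Hausdorff spaces `K` and `L` there is a positive linear bijection
`C(K) → C(L)` that is a homeomorphism for the topologies of pointwise convergence if and only if
there is one that is a homeomorphism for the norm topologies.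
(2) Each positive isomorphism of Banach spaces `T : C(K) → C(L)` is a limit in the operator norm of
positive isomorphisms `S` that are also homeomorphisms for the topologies of pointwise
convergence. -/
theorem result :
    (∀ (K : Type u) (L : Type v) [TopologicalSpace K] [CompactSpace K] [T2Space K] [Countable K]
      [TopologicalSpace L] [CompactSpace L] [T2Space L] [Countable L],
      (∃ T : C(K, ℝ) ≃ₗ[ℝ] C(L, ℝ), (∀ f, 0 ≤ f → 0 ≤ T f) ∧
        @Continuous _ _ (pointwise K) (pointwise L) T ∧
        @Continuous _ _ (pointwise L) (pointwise K) T.symm) ↔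
      (∃ T : C(K, ℝ) ≃ₗ[ℝ] C(L, ℝ), (∀ f, 0 ≤ f → 0 ≤ T f) ∧
        Continuous T ∧ Continuous T.symm)) ∧
    (∀ (K : Type u) (L : Type v) [TopologicalSpace K] [CompactSpace K] [T2Space K] [Countable K]
      [TopologicalSpace L] [CompactSpace L] [T2Space L] [Countable L]
      (T : C(K, ℝ) ≃L[ℝ] C(L, ℝ)), (∀ f, 0 ≤ f → 0 ≤ T f) → ∀ ε : ℝ, 0 < ε →
      ∃ S : C(K, ℝ) ≃L[ℝ] C(L, ℝ), (∀ f, 0 ≤ f → 0 ≤ S f) ∧
        ‖(S : C(K, ℝ) →L[ℝ] C(L, ℝ)) - T‖ ≤ ε ∧
        @Continuous _ _ (pointwise K) (pointwise L) S ∧
        @Continuous _ _ (pointwise L) (pointwise K) S.symm) := by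
  have key : ∀ (K : Type u) (L : Type v) [TopologicalSpace K] [CompactSpace K] [T2Space K]
      [Countable K] [TopologicalSpace L] [CompactSpace L] [T2Space L] [Countable L]
      (T : C(K, ℝ) ≃L[ℝ] C(L, ℝ)), (∀ f, 0 ≤ f → 0 ≤ T f) → ∀ ε : ℝ, 0 < ε →
      ∃ S : C(K, ℝ) ≃L[ℝ] C(L, ℝ), (∀ f, 0 ≤ f → 0 ≤ S f) ∧
        ‖(S : C(K, ℝ) →L[ℝ] C(L, ℝ)) - T‖ ≤ ε ∧
        @Continuous _ _ (pointwise K) (pointwise L) S ∧
        @Continuous _ _ (pointwise L) (pointwise K) S.symm := by
    intro K L _ _ _ _ _ _ _ _ T hT ε hε
    obtain ⟨S, h1, h2, h3, h4⟩ := Pool.Agent.K1H32.CP.approx T (fun f hf y => hT f hf y) hε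
    exact ⟨S, fun f hf y => h1 f hf y, h2, h3, h4⟩
  refine ⟨?_, key⟩
  intro K L _ _ _ _ _ _ _ _
  constructor
  · rintro ⟨T, hT, -, -⟩
    exact ⟨T, hT, Pool.Agent.K1H32.CP.auto T hT⟩
  · rintro ⟨T, hT, h1, h2⟩
    obtain ⟨S, k1, -, k3, k4⟩ := key K L ⟨T, h1, h2⟩ hT 1 one_pos
    exact ⟨S.toLinearEquiv, k1, k3, k4⟩

end Pool.Agent.Results.MP_fa8dfe_an.PositiveClassification
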